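import Pool.Agent.QDX.Point
import Pool.Agent.AA.Fields

/-!
# The number of quadratic points with a small discriminant
-/

set_option autoImplicit false

open Polynomial NumberField IntermediateField Module

namespace Pool.Agent.QDX

/-- the quadratic points with a discriminant in a given interval -/
theorem shell (k : Type) [Field k] [NumberField k] (η : ℝ) (hη : 0 < η) : ∃ C : ℝ, 0 < C ∧
    ∀ B l Y : ℝ, 1 ≤ B → 0 < l → 1 ≤ Y →
    {x : AlgebraicClosure k | finrank k (IntermediateField.adjoin k {x}) = 2 ∧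
      AA.relHeight x ≤ B ∧ l ≤ |(discr (IntermediateField.adjoin k {x}) : ℝ)| ∧
      |(discr (IntermediateField.adjoin k {x}) : ℝ)| ≤ Y}.Finite ∧
    ({x : AlgebraicClosure k | finrank k (IntermediateField.adjoin k {x}) = 2 ∧
      AA.relHeight x ≤ B ∧ l ≤ |(discr (IntermediateField.adjoin k {x}) : ℝ)| ∧
      |(discr (IntermediateField.adjoin k {x}) : ℝ)| ≤ Y}.ncard : ℝ) ≤
      C * Y * B ^ (2 + η) / √l := by
  classical
  obtain ⟨C₁, hC₁, h₁⟩ := AA.field_count k (AlgebraicClosure k) 2 le_rfl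
  obtain ⟨C₂, hC₂, h₂⟩ := point_count k η hη
  refine ⟨C₁ * C₂, by positivity, fun B l Y hB hl hY => ?_⟩
  have hB0 : 0 < B := by linarith
  obtain ⟨fF, cF⟩ := h₁ Y hY
  have he : ((2 : ℕ) + 2 : ℝ) / 4 = 1 := by norm_num
  rw [he, Real.rpow_one] at cF
  set Fs : Set (IntermediateField k (AlgebraicClosure k)) :=
    {F : IntermediateField k (AlgebraicClosure k) | finrank k F = 2 ∧
      ∃ _ : NumberField F, |(discr F : ℝ)| ≤ Y} with hFs
  set V : Set (AlgebraicClosure k) :=
    {x : AlgebraicClosure k | finrank k (IntermediateField.adjoin k {x}) = 2 ∧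
      AA.relHeight x ≤ B ∧ l ≤ |(discr (IntermediateField.adjoin k {x}) : ℝ)| ∧
      |(discr (IntermediateField.adjoin k {x}) : ℝ)| ≤ Y} with hV
  obtain ⟨fV, cV⟩ := AA.UpperAux.ncard_le_of_fiber V
    (fun x => IntermediateField.adjoin k {x}) Fs fF
    (fun x hx => ⟨hx.1, inferInstance, hx.2.2.2⟩) (C₂ * B ^ (2 + η) / √l) (fun L hL => by
      rcases (V ∩ (fun x => IntermediateField.adjoin k {x}) ⁻¹' {L}).eq_empty_or_nonempty with
        h0 | ⟨x₀, hx₀, hL₀⟩
      · rw [h0, Set.ncard_empty]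
        refine ⟨Set.finite_empty, ?_⟩
        rw [Nat.cast_zero]
        positivity
      · have hL₀' : IntermediateField.adjoin k {x₀} = L := hL₀
        subst hL₀'
        obtain ⟨f3, c3⟩ := h₂ (IntermediateField.adjoin k {x₀}) hx₀.1 B hB
        have hsub : V ∩ (fun x => IntermediateField.adjoin k {x}) ⁻¹'
            {IntermediateField.adjoin k {x₀}} ⊆ {x : AlgebraicClosure k |
              IntermediateField.adjoin k {x} = IntermediateField.adjoin k {x₀} ∧
              AA.relHeight x ≤ B} := by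
          rintro x ⟨hx, hxL⟩
          exact ⟨hxL, hx.2.1⟩
        refine ⟨f3.subset hsub, (Nat.cast_le.2 (Set.ncard_le_ncard hsub f3)).trans (c3.trans ?_)⟩
        refine div_le_div_of_nonneg_left (by positivity) (Real.sqrt_pos.2 hl) ?_
        exact Real.sqrt_le_sqrt hx₀.2.2.1)
  refine ⟨fV, cV.trans ?_⟩
  calc (Fs.ncard : ℝ) * (C₂ * B ^ (2 + η) / √l) ≤ (C₁ * Y) * (C₂ * B ^ (2 + η) / √l) :=
        mul_le_mul_of_nonneg_right cF (by positivity)
    _ = _ := by ring

theorem one_le_discr (K : Type) [Field K] [NumberField K] : (1 : ℝ) ≤ |(discr K : ℝ)| := by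
  have h := Int.one_le_abs (discr_ne_zero K)
  exact_mod_cast h

/-- the quadratic points with a discriminant at most a power of the height -/
theorem power (k : Type) [Field k] [NumberField k] (η : ℝ) (hη : 0 < η) (j : ℕ) :
    ∃ C : ℝ, 0 < C ∧ ∀ B : ℝ, 1 ≤ B →
    {x : AlgebraicClosure k | finrank k (IntermediateField.adjoin k {x}) = 2 ∧
      AA.relHeight x ≤ B ∧
      |(discr (IntermediateField.adjoin k {x}) : ℝ)| ≤ B ^ (j * η)}.Finite ∧
    ({x : AlgebraicClosure k | finrank k (IntermediateField.adjoin k {x}) = 2 ∧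
      AA.relHeight x ≤ B ∧
      |(discr (IntermediateField.adjoin k {x}) : ℝ)| ≤ B ^ (j * η)}.ncard : ℝ) ≤
      C * B ^ (2 + 2 * η + j * η / 2) := by
  obtain ⟨C, hC, h⟩ := shell k η hη
  induction j with
  | zero =>
    refine ⟨C, hC, fun B hB => ?_⟩
    have hB0 : 0 < B := by linarith
    obtain ⟨f1, c1⟩ := h B 1 1 hB one_pos le_rfl
    rw [Nat.cast_zero, zero_mul, Real.rpow_zero, zero_div, add_zero]
    have hsub : {x : AlgebraicClosure k | finrank k (IntermediateField.adjoin k {x}) = 2 ∧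
        AA.relHeight x ≤ B ∧ |(discr (IntermediateField.adjoin k {x}) : ℝ)| ≤ 1} ⊆
        {x : AlgebraicClosure k | finrank k (IntermediateField.adjoin k {x}) = 2 ∧
        AA.relHeight x ≤ B ∧ 1 ≤ |(discr (IntermediateField.adjoin k {x}) : ℝ)| ∧
        |(discr (IntermediateField.adjoin k {x}) : ℝ)| ≤ 1} := by
      rintro x ⟨h1, h2, h3⟩
      exact ⟨h1, h2, one_le_discr _, h3⟩
    refine ⟨f1.subset hsub, (Nat.cast_le.2 (Set.ncard_le_ncard hsub f1)).trans (c1.trans ?_)⟩
    rw [Real.sqrt_one, div_one, mul_one]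
    exact mul_le_mul_of_nonneg_left (Real.rpow_le_rpow_of_exponent_le hB (by linarith)) hC.le
  | succ j ih =>
    obtain ⟨C', hC', ih⟩ := ih
    refine ⟨C' + C, by positivity, fun B hB => ?_⟩
    have hB0 : 0 < B := by linarith
    obtain ⟨f1, c1⟩ := ih B hB
    obtain ⟨f2, c2⟩ := h B (B ^ (j * η)) (B ^ (((j + 1 : ℕ) : ℝ) * η)) hB (by positivity)
      (Real.one_le_rpow hB (by positivity))
    have hsub : {x : AlgebraicClosure k | finrank k (IntermediateField.adjoin k {x}) = 2 ∧
        AA.relHeight x ≤ B ∧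
        |(discr (IntermediateField.adjoin k {x}) : ℝ)| ≤ B ^ (((j + 1 : ℕ) : ℝ) * η)} ⊆
        {x : AlgebraicClosure k | finrank k (IntermediateField.adjoin k {x}) = 2 ∧
          AA.relHeight x ≤ B ∧
          |(discr (IntermediateField.adjoin k {x}) : ℝ)| ≤ B ^ (j * η)} ∪
        {x : AlgebraicClosure k | finrank k (IntermediateField.adjoin k {x}) = 2 ∧
          AA.relHeight x ≤ B ∧
          B ^ (j * η) ≤ |(discr (IntermediateField.adjoin k {x}) : ℝ)| ∧
          |(discr (IntermediateField.adjoin k {x}) : ℝ)| ≤ B ^ (((j + 1 : ℕ) : ℝ) * η)} := by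
      rintro x ⟨h1, h2, h3⟩
      rcases le_total |(discr (IntermediateField.adjoin k {x}) : ℝ)| (B ^ (j * η)) with h4 | h4
      · exact Or.inl ⟨h1, h2, h4⟩
      · exact Or.inr ⟨h1, h2, h4, h3⟩
    refine ⟨(f1.union f2).subset hsub, ?_⟩
    have h5 := (Set.ncard_le_ncard hsub (f1.union f2)).trans (Set.ncard_union_le _ _)
    have h6 := (Nat.cast_le (α := ℝ)).2 h5
    refine h6.trans ?_
    rw [Nat.cast_add (Set.ncard _) (Set.ncard _), add_mul]
    refine add_le_add (c1.trans ?_) (c2.trans ?_)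
    · refine mul_le_mul_of_nonneg_left (Real.rpow_le_rpow_of_exponent_le hB ?_) hC'.le
      push_cast
      nlinarith
    · rw [Real.sqrt_eq_rpow, ← Real.rpow_mul hB0.le, mul_assoc, mul_div_assoc,
        ← Real.rpow_add hB0, ← Real.rpow_sub hB0]
      refine mul_le_mul_of_nonneg_left (Real.rpow_le_rpow_of_exponent_le hB ?_) hC.le
      push_cast
      nlinarith

/-- All but few quadratic points have a discriminant at least the `A'`-th power of the height, for
every `A' < 2`. -/
theorem disc_two (k : Type) [Field k] [NumberField k] (A' : ℝ) (hA' : A' < 2) :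
    ∃ C δ : ℝ, 0 ≤ C ∧ 0 < δ ∧ ∀ T : ℝ, 0 ≤ T →
      {x : AlgebraicClosure k | finrank k (IntermediateField.adjoin k {x}) = 2 ∧
        AA.height x ≤ T ∧ AA.logDiscr x < A' * AA.height x}.Finite ∧
      ({x : AlgebraicClosure k | finrank k (IntermediateField.adjoin k {x}) = 2 ∧
        AA.height x ≤ T ∧ AA.logDiscr x < A' * AA.height x}.ncard : ℝ) ≤
        C * Real.exp ((((2 : ℕ) : ℝ) + 1 - δ) * (finrank ℚ k * ((2 : ℕ) : ℝ)) * T) := by
  set a : ℝ := max A' 0 with ha
  have ha0 : 0 ≤ a := le_max_right _ _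
  have ha2 : a < 2 := max_lt hA' two_pos
  set η : ℝ := (1 - a / 2) / 5 with hη
  have hη0 : 0 < η := by rw [hη]; linarith
  set j : ℕ := ⌈a / η⌉₊ with hj
  have hj1 : a ≤ j * η := by
    have := Nat.le_ceil (a / η)
    rwa [div_le_iff₀ hη0] at this
  have hj2 : (j : ℝ) * η ≤ a + η := by
    have h1 := (Nat.ceil_lt_add_one (div_nonneg ha0 hη0.le)).le
    have h2 : (j : ℝ) * η ≤ (a / η + 1) * η := mul_le_mul_of_nonneg_right h1 hη0.le
    rwa [add_mul, div_mul_cancel₀ _ hη0.ne', one_mul] at h2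
  obtain ⟨C, hC, h⟩ := power k η hη0 j
  refine ⟨C, (1 - a / 2) / 2, hC.le, by linarith, fun T hT => ?_⟩
  set d := finrank ℚ k with hd
  set B : ℝ := Real.exp (d * (2 : ℕ) * T) with hB
  have hB1 : 1 ≤ B := Real.one_le_exp (by positivity)
  obtain ⟨f1, c1⟩ := h B hB1
  have hsub : {x : AlgebraicClosure k | finrank k (IntermediateField.adjoin k {x}) = 2 ∧
        AA.height x ≤ T ∧ AA.logDiscr x < A' * AA.height x} ⊆
      {x : AlgebraicClosure k | finrank k (IntermediateField.adjoin k {x}) = 2 ∧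
        AA.relHeight x ≤ B ∧
        |(discr (IntermediateField.adjoin k {x}) : ℝ)| ≤ B ^ (j * η)} := by
    rintro x ⟨h1, h2, h3⟩
    have hn : (finrank ℚ (IntermediateField.adjoin k {x}) : ℝ) = d * (2 : ℕ) := by
      have := finrank_mul_finrank ℚ k (IntermediateField.adjoin k {x})
      rw [h1] at this
      exact_mod_cast this.symm
    have hh0 : 0 ≤ AA.height x := div_nonneg (Height.zero_le_logHeight₁ _) (Nat.cast_nonneg _)
    refine ⟨h1, ?_, ?_⟩
    · rw [SFD.relHeight_eq x 2 h1]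
      exact Real.exp_le_exp.2 (mul_le_mul_of_nonneg_left h2 (by positivity))
    · have hn0 : (0 : ℝ) < finrank ℚ (IntermediateField.adjoin k {x}) := by
        have : 0 < finrank ℚ (IntermediateField.adjoin k {x}) := finrank_pos
        exact_mod_cast this
      have h4 : Real.log |(discr (IntermediateField.adjoin k {x}) : ℝ)| ≤
          (d * (2 : ℕ) * T) * (j * η) := by
        have h5 : AA.logDiscr x * finrank ℚ (IntermediateField.adjoin k {x}) =
            Real.log |(discr (IntermediateField.adjoin k {x}) : ℝ)| := by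
          unfold AA.logDiscr SST.logDisc
          exact div_mul_cancel₀ _ hn0.ne'
        rw [← h5, hn]
        have h6 : AA.logDiscr x ≤ (j * η) * T := by
          calc AA.logDiscr x ≤ A' * AA.height x := h3.le
            _ ≤ a * AA.height x := mul_le_mul_of_nonneg_right (le_max_left _ _) hh0
            _ ≤ a * T := mul_le_mul_of_nonneg_left h2 ha0
            _ ≤ (j * η) * T := mul_le_mul_of_nonneg_right hj1 hT
        calc AA.logDiscr x * (d * (2 : ℕ)) ≤ ((j * η) * T) * (d * (2 : ℕ)) :=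
              mul_le_mul_of_nonneg_right h6 (by positivity)
          _ = _ := by ring
      rw [hB, ← Real.exp_mul, ← Real.exp_log (lt_of_lt_of_le one_pos
        (one_le_discr (IntermediateField.adjoin k {x})))]
      exact Real.exp_le_exp.2 h4
  refine ⟨f1.subset hsub, (Nat.cast_le.2 (Set.ncard_le_ncard hsub f1)).trans (c1.trans ?_)⟩
  rw [hB, ← Real.exp_mul]
  refine mul_le_mul_of_nonneg_left (Real.exp_le_exp.2 ?_) hC.le
  have h7 : 2 + 2 * η + j * η / 2 ≤ ((2 : ℕ) : ℝ) + 1 - (1 - a / 2) / 2 := by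
    push_cast
    rw [hη] at hj2 ⊢
    linarith
  have h8 : 0 ≤ (d : ℝ) * ((2 : ℕ) : ℝ) * T := by positivity
  calc (d : ℝ) * ((2 : ℕ) : ℝ) * T * (2 + 2 * η + j * η / 2)
      ≤ (d : ℝ) * ((2 : ℕ) : ℝ) * T * (((2 : ℕ) : ℝ) + 1 - (1 - a / 2) / 2) :=
        mul_le_mul_of_nonneg_left h7 h8
    _ = _ := by ring

end Pool.Agent.QDX
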