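import Pool.Agent.SFD.CountW
import Pool.Agent.SS.Ideals
import Pool.Agent.AA.Upper

/-!
# Counting integers of a number field: weighted cells, units, factorisations
-/

set_option autoImplicit false

open Polynomial NumberField IntermediateField Module

namespace Pool.Agent.QDX

/-- one real coordinate for every embedding -/
private noncomputable def coordI {K : Type} [Field K] [NumberField K] (φ : K →+* ℂ) (a : K) : ℝ :=
  open Classical in if φ = (InfinitePlace.mk φ).embedding then (φ a).re else (φ a).im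

private theorem coordI_sub {K : Type} [Field K] [NumberField K] (φ : K →+* ℂ) (a b : K) :
    coordI φ (a - b) = coordI φ a - coordI φ b := by
  unfold coordI
  split_ifs
  · rw [map_sub, Complex.sub_re]
  · rw [map_sub, Complex.sub_im]

private theorem abs_coordI {K : Type} [Field K] [NumberField K] (φ : K →+* ℂ) (a : K) :
    |coordI φ a| ≤ (InfinitePlace.mk φ) a := by
  rw [InfinitePlace.apply]
  unfold coordI
  split_ifs
  · exact Complex.abs_re_le_norm _
  · exact Complex.abs_im_le_norm _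

private theorem lt_of_coordI {K : Type} [Field K] [NumberField K] (a : K) (t : ℝ) (ht : 0 < t)
    (w : InfinitePlace K)
    (h : ∀ φ : K →+* ℂ, InfinitePlace.mk φ = w → |coordI φ a| < t / 2) : w a < t := by
  classical
  have hre : |(w.embedding a).re| < t / 2 := by
    have := h w.embedding (InfinitePlace.mk_embedding w)
    unfold coordI at this
    rwa [InfinitePlace.mk_embedding, if_pos rfl] at this
  have him : |(w.embedding a).im| < t / 2 := by
    by_cases hw : w.IsReal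
    · have h1 := InfinitePlace.isReal_iff.1 hw
      have h2 : starRingEnd ℂ (w.embedding a) = w.embedding a := by
        have := RingHom.congr_fun h1 a
        rwa [ComplexEmbedding.conjugate_coe_eq] at this
      rw [Complex.conj_eq_iff_im] at h2
      rw [h2, abs_zero]
      linarith
    · have h1 : ¬ ComplexEmbedding.IsReal w.embedding := fun h2 => hw (InfinitePlace.isReal_iff.2 h2)
      have h3 : ComplexEmbedding.conjugate w.embedding ≠ w.embedding := h1
      have := h (ComplexEmbedding.conjugate w.embedding) (by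
        rw [InfinitePlace.mk_conjugate_eq, InfinitePlace.mk_embedding])
      unfold coordI at this
      rw [InfinitePlace.mk_conjugate_eq, InfinitePlace.mk_embedding, if_neg h3,
        ComplexEmbedding.conjugate_coe_eq, Complex.conj_im, abs_neg] at this
      exact this
  rw [← InfinitePlace.norm_embedding_eq w a]
  have h1 : ‖w.embedding a‖ ^ 2 < t ^ 2 := by
    rw [Complex.sq_norm, Complex.normSq_apply]
    have h2 := abs_lt.1 hre
    have h3 := abs_lt.1 him
    nlinarith [mul_self_lt_mul_self (abs_nonneg (w.embedding a).re) hre,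
      mul_self_lt_mul_self (abs_nonneg (w.embedding a).im) him,
      abs_mul_abs_self (w.embedding a).re, abs_mul_abs_self (w.embedding a).im]
  exact lt_of_pow_lt_pow_left₀ 2 ht.le h1

/-- Weighted cells. -/
theorem cells_w {k : Type} [Field k] [NumberField k] {α : Type} (s : α → k) (R τ : ℝ)
    (μ : InfinitePlace k → ℝ) (hτ : 0 < τ) (hτR : τ ≤ R) (hμ : ∀ v, 0 < μ v) (S : Set α)
    (hS : ∀ a ∈ S, ∀ v : InfinitePlace k, v (s a) ≤ R * μ v)
    (hinj : ∀ a ∈ S, ∀ b ∈ S, (∀ v : InfinitePlace k, v (s a - s b) < τ * μ v) → a = b) :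
    S.Finite ∧ (S.ncard : ℝ) ≤ (8 * R / τ) ^ finrank ℚ k := by
  classical
  have hR : 0 < R := lt_of_lt_of_le hτ hτR
  have ht : ∀ φ : k →+* ℂ, 0 < τ * μ (InfinitePlace.mk φ) := fun φ => mul_pos hτ (hμ _)
  set F : Finset ((k →+* ℂ) → ℤ) :=
    Fintype.piFinset fun _ => Finset.Ico (-⌈2 * R / τ⌉ - 1) (⌈2 * R / τ⌉ + 1) with hF
  have hquot : ∀ φ : k →+* ℂ, 2 * (R * μ (InfinitePlace.mk φ)) / (τ * μ (InfinitePlace.mk φ)) =
      2 * R / τ := by
    intro φ
    have := (hμ (InfinitePlace.mk φ)).ne'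
    field_simp
  have hmaps : ∀ a ∈ S, (fun (φ : k →+* ℂ) =>
      ⌊2 * coordI φ (s a) / (τ * μ (InfinitePlace.mk φ))⌋) ∈ (F : Set _) := by
    intro a ha
    rw [Finset.mem_coe, hF, Fintype.mem_piFinset]
    intro φ
    have h1 := abs_le.1 ((abs_coordI φ (s a)).trans (hS a ha (InfinitePlace.mk φ)))
    have h2 := Int.le_ceil (2 * R / τ)
    have h3 : 2 * coordI φ (s a) / (τ * μ (InfinitePlace.mk φ)) ≤ 2 * R / τ := by
      rw [← hquot φ]
      exact div_le_div_of_nonneg_right (by linarith [h1.2]) (ht φ).le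
    have h4 : -(2 * R / τ) ≤ 2 * coordI φ (s a) / (τ * μ (InfinitePlace.mk φ)) := by
      rw [← hquot φ, ← neg_div]
      exact div_le_div_of_nonneg_right (by linarith [h1.1]) (ht φ).le
    rw [Finset.mem_Ico, Int.le_floor, Int.floor_lt]
    push_cast
    constructor <;> linarith
  have hinj' : Set.InjOn (fun (a : α) (φ : k →+* ℂ) =>
      ⌊2 * coordI φ (s a) / (τ * μ (InfinitePlace.mk φ))⌋) S := by
    intro a ha b hb hab
    refine hinj a ha b hb fun w => ?_
    refine lt_of_coordI _ (τ * μ w) (mul_pos hτ (hμ w)) w (fun φ hφ => ?_)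
    have h2 : ⌊2 * coordI φ (s a) / (τ * μ (InfinitePlace.mk φ))⌋ =
        ⌊2 * coordI φ (s b) / (τ * μ (InfinitePlace.mk φ))⌋ := congrFun hab φ
    have h4 := Int.abs_sub_lt_one_of_floor_eq_floor h2
    rw [← sub_div, abs_div, abs_of_pos (ht φ), div_lt_one (ht φ), ← mul_sub, abs_mul,
      abs_two, ← coordI_sub, hφ] at h4
    linarith
  have hfin : S.Finite := Set.Finite.of_injOn hmaps hinj' F.finite_toSet
  refine ⟨hfin, ?_⟩
  have h1 : S.ncard ≤ F.card := by
    rw [← Set.ncard_coe_finset]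
    exact Set.ncard_le_ncard_of_injOn _ hmaps hinj' F.finite_toSet
  have h2 : (F.card : ℝ) ≤ (8 * R / τ) ^ finrank ℚ k := by
    rw [hF, Fintype.card_piFinset, Finset.prod_const, Finset.card_univ, Int.card_Ico,
      Embeddings.card, Nat.cast_pow]
    refine pow_le_pow_left₀ (Nat.cast_nonneg _) ?_ _
    have h3 : (0 : ℤ) ≤ ⌈2 * R / τ⌉ := Int.ceil_nonneg (by positivity)
    have h4 : (((⌈2 * R / τ⌉ + 1 - (-⌈2 * R / τ⌉ - 1)).toNat : ℕ) : ℝ) =
        ((⌈2 * R / τ⌉ + 1 - (-⌈2 * R / τ⌉ - 1) : ℤ) : ℝ) := by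
      exact_mod_cast Int.toNat_of_nonneg (by linarith)
    rw [h4]
    push_cast
    have h5 := Int.ceil_lt_add_one (2 * R / τ)
    have h6 : 1 ≤ R / τ := by
      rw [le_div_iff₀ hτ, one_mul]
      exact hτR
    have h7 : 2 * R / τ = 2 * (R / τ) := by ring
    have h8 : 8 * R / τ = 8 * (R / τ) := by ring
    rw [h7] at h5 ⊢
    rw [h8]
    linarith
  exact (Nat.cast_le.2 h1).trans h2

/-- The number of the integers of size at most `R`. -/
theorem int_count (k : Type) [Field k] [NumberField k] (R : ℝ) (hR : 1 ≤ R) :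
    {b : 𝓞 k | ∀ v : InfinitePlace k, v (b : k) ≤ R}.Finite ∧
      ({b : 𝓞 k | ∀ v : InfinitePlace k, v (b : k) ≤ R}.ncard : ℝ) ≤
        (8 * R) ^ finrank ℚ k := by
  have h := cells_w (fun b : 𝓞 k => (b : k)) R 1 (fun _ => 1) one_pos hR (fun _ => one_pos)
    {b : 𝓞 k | ∀ v : InfinitePlace k, v (b : k) ≤ R} (fun b hb v => by
      rw [mul_one]
      exact hb v) (fun a _ b _ hab => by
      have h1 : a - b = 0 := SFD.eq_zero_of_lt_one (a - b) fun w => by
        have := hab w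
        rwa [one_mul] at this
      exact sub_eq_zero.1 h1)
  rwa [div_one] at h

/-- a lower bound for the absolute values of an integer -/
theorem le_place {k : Type} [Field k] [NumberField k] (a : 𝓞 k) (ha : a ≠ 0) (R : ℝ)
    (hR : 1 ≤ R) (h : ∀ w : InfinitePlace k, w (a : k) ≤ R) (v : InfinitePlace k) :
    R ≤ v (a : k) * R ^ finrank ℚ k := by
  classical
  have hR0 : 0 < R := by linarith
  have h1 : (1 : ℝ) ≤ ∏ w : InfinitePlace k, w (a : k) ^ w.mult := by
    rw [InfinitePlace.prod_eq_abs_norm, ← Algebra.coe_norm_int]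
    have h2 : Algebra.norm ℤ a ≠ 0 := Algebra.norm_ne_zero_iff.2 ha
    have h3 := Int.one_le_abs h2
    push_cast
    exact_mod_cast h3
  have h2 : ∏ w : InfinitePlace k, w (a : k) ^ w.mult =
      (∏ w : InfinitePlace k, (w (a : k) / R) ^ w.mult) * R ^ finrank ℚ k := by
    rw [← InfinitePlace.sum_mult_eq (K := k), ← Finset.prod_pow_eq_pow_sum,
      ← Finset.prod_mul_distrib]
    refine Finset.prod_congr rfl fun w _ => ?_
    rw [← mul_pow, div_mul_cancel₀ _ hR0.ne']
  have h3 : ∀ w : InfinitePlace k, 0 ≤ w (a : k) / R := fun w =>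
    div_nonneg (apply_nonneg w _) hR0.le
  have h4 : ∀ w : InfinitePlace k, w (a : k) / R ≤ 1 := fun w => by
    rw [div_le_one hR0]
    exact h w
  have h5 : ∏ w : InfinitePlace k, (w (a : k) / R) ^ w.mult ≤ v (a : k) / R := by
    rw [← Finset.mul_prod_erase _ _ (Finset.mem_univ v)]
    have h6 : ∏ w ∈ Finset.univ.erase v, (w (a : k) / R) ^ w.mult ≤ 1 :=
      Finset.prod_le_one (fun w _ => pow_nonneg (h3 w) _) fun w _ => pow_le_one₀ (h3 w) (h4 w)
    have h7 : (v (a : k) / R) ^ v.mult ≤ v (a : k) / R :=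
      pow_le_of_le_one (h3 v) (h4 v) (InfinitePlace.mult_pos).ne'
    calc _ ≤ (v (a : k) / R) * 1 := mul_le_mul h7 h6
          (Finset.prod_nonneg fun w _ => pow_nonneg (h3 w) _) (h3 v)
      _ = _ := mul_one _
  have h6 : 1 ≤ v (a : k) / R * R ^ finrank ℚ k := by
    rw [h2] at h1
    exact h1.trans (mul_le_mul_of_nonneg_right h5 (by positivity))
  calc R = 1 * R := (one_mul R).symm
    _ ≤ (v (a : k) / R * R ^ finrank ℚ k) * R := mul_le_mul_of_nonneg_right h6 hR0.le
    _ = _ := by field_simp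

/-- The number of the units of size at most `X`. -/
theorem unit_count (k : Type) [Field k] [NumberField k] : ∃ K : ℝ, 0 ≤ K ∧ ∀ X : ℝ, 1 ≤ X →
    {u : (𝓞 k)ˣ | ∀ v : InfinitePlace k, v ((u : 𝓞 k) : k) ≤ X}.Finite ∧
    ({u : (𝓞 k)ˣ | ∀ v : InfinitePlace k, v ((u : 𝓞 k) : k) ≤ X}.ncard : ℝ) ≤
      K * ((finrank ℚ k + 1) * Real.log X + 2) ^ Fintype.card (InfinitePlace k) := by
  classical
  set d := finrank ℚ k with hd
  have hE : ∀ X : ℝ, 1 ≤ X → {u : (𝓞 k)ˣ | ∀ v : InfinitePlace k, v ((u : 𝓞 k) : k) ≤ X}.Finite := by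
    intro X hX
    refine Set.Finite.of_finite_image (f := fun u : (𝓞 k)ˣ => (u : 𝓞 k))
      ((int_count k X hX).1.subset ?_) (Units.val_injective.injOn)
    rintro _ ⟨u, hu, rfl⟩
    exact hu
  set E : Set (𝓞 k)ˣ := {u : (𝓞 k)ˣ | ∀ v : InfinitePlace k, v ((u : 𝓞 k) : k) ≤ Real.exp 1}
    with hEdef
  have hEfin : E.Finite := hE _ (Real.one_le_exp zero_le_one)
  refine ⟨E.ncard, Nat.cast_nonneg _, fun X hX => ?_⟩
  have hX0 : 0 < X := by linarith
  have hlog : 0 ≤ Real.log X := Real.log_nonneg hX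
  refine ⟨hE X hX, ?_⟩
  set V : Set (𝓞 k)ˣ := {u : (𝓞 k)ˣ | ∀ v : InfinitePlace k, v ((u : 𝓞 k) : k) ≤ X} with hV
  set W : Finset (InfinitePlace k → ℤ) := Fintype.piFinset fun _ =>
    Finset.Icc ⌊-(d * Real.log X)⌋ ⌊Real.log X⌋ with hW
  have hpos : ∀ (u : (𝓞 k)ˣ) (v : InfinitePlace k), 0 < v ((u : 𝓞 k) : k) := fun u v => by
    rw [InfinitePlace.pos_iff]
    exact fun h => u.ne_zero (RingOfIntegers.coe_eq_zero_iff.1 h)
  have hmaps : ∀ u ∈ V, (fun v : InfinitePlace k => ⌊Real.log (v ((u : 𝓞 k) : k))⌋) ∈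
      (W : Set _) := by
    intro u hu
    rw [Finset.mem_coe, hW, Fintype.mem_piFinset]
    intro v
    rw [Finset.mem_Icc]
    constructor
    · refine Int.floor_le_floor ?_
      have h1 := le_place (u : 𝓞 k) u.ne_zero X hX hu v
      have h2 : 1 ≤ v ((u : 𝓞 k) : k) * X ^ d := hX.trans h1
      have h3 := Real.log_nonneg h2
      rw [Real.log_mul (hpos u v).ne' (by positivity), Real.log_pow] at h3
      linarith
    · exact Int.floor_le_floor (Real.log_le_log (hpos u v) (hu v))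
  have hfib := AA.UpperAux.ncard_le_of_fiber V
    (fun u (v : InfinitePlace k) => ⌊Real.log (v ((u : 𝓞 k) : k))⌋) (W : Set _) W.finite_toSet
    hmaps (E.ncard : ℝ) (fun c _ => by
      rcases (V ∩ (fun u (v : InfinitePlace k) => ⌊Real.log (v ((u : 𝓞 k) : k))⌋) ⁻¹'
        {c}).eq_empty_or_nonempty with h0 | ⟨u₀, hu₀, hc₀⟩
      · rw [h0, Set.ncard_empty]
        exact ⟨Set.finite_empty, by exact_mod_cast Nat.zero_le _⟩
      · have hsub : V ∩ (fun u (v : InfinitePlace k) => ⌊Real.log (v ((u : 𝓞 k) : k))⌋) ⁻¹' {c} ⊆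
            (fun e : (𝓞 k)ˣ => e * u₀) '' E := by
          rintro u ⟨hu, hc⟩
          refine ⟨u * u₀⁻¹, fun v => ?_, by simp⟩
          have h1 : ⌊Real.log (v ((u : 𝓞 k) : k))⌋ = ⌊Real.log (v ((u₀ : 𝓞 k) : k))⌋ := by
            have e1 := congrFun hc v
            have e2 := congrFun hc₀ v
            exact e1.trans e2.symm
          have h2 := (abs_lt.1 (Int.abs_sub_lt_one_of_floor_eq_floor h1)).2
          have h3 : v (((u * u₀⁻¹ : (𝓞 k)ˣ) : 𝓞 k) : k) * v ((u₀ : 𝓞 k) : k) =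
              v ((u : 𝓞 k) : k) := by
            rw [← map_mul]
            congr 1
            rw [← map_mul, ← Units.val_mul]
            simp
          have h4 := congrArg Real.log h3
          rw [Real.log_mul (hpos _ v).ne' (hpos _ v).ne'] at h4
          rw [← Real.exp_log (hpos (u * u₀⁻¹) v)]
          exact Real.exp_le_exp.2 (by linarith)
        have h1 := (Set.ncard_le_ncard hsub (hEfin.image _)).trans
          (Set.ncard_image_le hEfin)
        exact ⟨(hEfin.image _).subset hsub, by exact_mod_cast h1⟩)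
  refine hfib.2.trans ?_
  rw [mul_comm, Set.ncard_coe_finset]
  refine mul_le_mul_of_nonneg_left ?_ (Nat.cast_nonneg _)
  rw [hW, Fintype.card_piFinset, Finset.prod_const, Finset.card_univ, Nat.cast_pow]
  refine pow_le_pow_left₀ (Nat.cast_nonneg _) ?_ _
  rw [Int.card_Icc]
  have h1 : (0 : ℤ) ≤ ⌊Real.log X⌋ + 1 - ⌊-(d * Real.log X)⌋ := by
    have e1 : (0 : ℤ) ≤ ⌊Real.log X⌋ := Int.floor_nonneg.2 hlog
    have e2 : ⌊-(d * Real.log X)⌋ ≤ 0 := by
      have : (⌊-(d * Real.log X)⌋ : ℝ) ≤ 0 :=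
        (Int.floor_le _).trans (by have : 0 ≤ (d : ℝ) * Real.log X := by positivity
                                   linarith)
      exact_mod_cast this
    linarith
  have h2 : (((⌊Real.log X⌋ + 1 - ⌊-(d * Real.log X)⌋).toNat : ℕ) : ℝ) =
      ((⌊Real.log X⌋ + 1 - ⌊-(d * Real.log X)⌋ : ℤ) : ℝ) := by
    exact_mod_cast Int.toNat_of_nonneg h1
  rw [h2]
  push_cast
  have h3 := Int.floor_le (Real.log X)
  have h4 := Int.lt_floor_add_one (-(d * Real.log X))
  linarith

/-- The number of the factorisations of an integer into two factors of bounded size. -/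
theorem pair_count (k : Type) [Field k] [NumberField k] (η : ℝ) (hη : 0 < η) : ∃ C : ℝ, 1 ≤ C ∧
    ∀ R : ℝ, 1 ≤ R → ∀ m : 𝓞 k, m ≠ 0 →
    {p : 𝓞 k × 𝓞 k | p.1 * p.2 = m ∧ ∀ v : InfinitePlace k, v (p.1 : k) ≤ R ∧
      v (p.2 : k) ≤ R}.Finite ∧
    ({p : 𝓞 k × 𝓞 k | p.1 * p.2 = m ∧ ∀ v : InfinitePlace k, v (p.1 : k) ≤ R ∧
      v (p.2 : k) ≤ R}.ncard : ℝ) ≤ C * R ^ η := by
  classical
  set d := finrank ℚ k with hd
  have hd0 : 0 < d := finrank_pos
  have hd1 : (0 : ℝ) < d := by exact_mod_cast hd0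
  set r := Fintype.card (InfinitePlace k) with hr
  obtain ⟨C₁, hC₁, hdvd⟩ := SS.card_dvd k (η / (4 * d)) (by positivity)
  obtain ⟨K, hK, hunit⟩ := unit_count k
  set ε : ℝ := η / (2 * (r + 1)) with hε
  have hε0 : 0 < ε := by positivity
  set Q : ℝ := (d + 1) * d / ε + 2 with hQ
  have hQ1 : 1 ≤ Q := by
    have : 0 ≤ ((d : ℝ) + 1) * d / ε := by positivity
    linarith
  refine ⟨C₁ * (1 + K * Q ^ r), ?_, fun R hR m hm => ?_⟩
  · have : 0 ≤ K * Q ^ r := by positivity
    nlinarith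
  have hR0 : 0 < R := by linarith
  have hlog : 0 ≤ Real.log R := Real.log_nonneg hR
  set V : Set (𝓞 k × 𝓞 k) := {p : 𝓞 k × 𝓞 k | p.1 * p.2 = m ∧
    ∀ v : InfinitePlace k, v (p.1 : k) ≤ R ∧ v (p.2 : k) ≤ R} with hV
  have hne : ∀ p ∈ V, p.1 ≠ 0 ∧ p.2 ≠ 0 := by
    rintro p ⟨hp, -⟩
    rw [← hp] at hm
    exact mul_ne_zero_iff.1 hm
  rcases V.eq_empty_or_nonempty with h0 | ⟨q, hq⟩
  · rw [h0, Set.ncard_empty]
    refine ⟨Set.finite_empty, ?_⟩
    rw [Nat.cast_zero]
    positivity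
  have hm0 : (Ideal.span {m} : Ideal (𝓞 k)) ≠ 0 := by
    rw [Ne, Ideal.zero_eq_bot, Ideal.span_singleton_eq_bot]
    exact hm
  obtain ⟨hfin, hcard⟩ := hdvd _ hm0
  have hnorm : (Ideal.absNorm (Ideal.span {m} : Ideal (𝓞 k)) : ℝ) ≤ (R ^ 2) ^ d := by
    refine SFD.absNorm_le _ m hm (Ideal.mem_span_singleton_self m) (R ^ 2) fun w => ?_
    rw [← hq.1]
    have : ((q.1 * q.2 : 𝓞 k) : k) = (q.1 : k) * (q.2 : k) := rfl
    rw [this, map_mul, sq]
    exact mul_le_mul (hq.2 w).1 (hq.2 w).2 (apply_nonneg w _) hR0.le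
  have hI : ({I : Ideal (𝓞 k) | I ∣ Ideal.span {m}}.ncard : ℝ) ≤ C₁ * R ^ (η / 2) := by
    refine hcard.trans (mul_le_mul_of_nonneg_left ?_ (by linarith))
    calc (Ideal.absNorm (Ideal.span {m} : Ideal (𝓞 k)) : ℝ) ^ (η / (4 * d))
        ≤ ((R ^ 2) ^ d) ^ (η / (4 * d)) :=
          Real.rpow_le_rpow (Nat.cast_nonneg _) hnorm (by positivity)
      _ = R ^ (η / 2) := by
          rw [← pow_mul, ← Real.rpow_natCast R, ← Real.rpow_mul hR0.le]
          congr 1
          push_cast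
          field_simp
          ring
  have hRd : 1 ≤ R ^ d := one_le_pow₀ hR
  obtain ⟨hUfin, hUcard⟩ := hunit (R ^ d) hRd
  set U : Set (𝓞 k)ˣ := {u : (𝓞 k)ˣ | ∀ v : InfinitePlace k, v ((u : 𝓞 k) : k) ≤ R ^ d} with hU
  have hUc : (U.ncard : ℝ) ≤ K * Q ^ r * R ^ (η / 2) := by
    refine hUcard.trans ?_
    rw [mul_assoc]
    refine mul_le_mul_of_nonneg_left ?_ hK
    have h1 : (d + 1) * Real.log (R ^ d) + 2 ≤ Q * R ^ ε := by
      have h2 := Real.log_le_rpow_div hR0.le hε0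
      have h3 : 1 ≤ R ^ ε := Real.one_le_rpow hR hε0.le
      rw [Real.log_pow, hQ]
      calc ((d : ℝ) + 1) * (d * Real.log R) + 2 ≤ (d + 1) * (d * (R ^ ε / ε)) + 2 * R ^ ε := by
            have : ((d : ℝ) + 1) * (d * Real.log R) ≤ (d + 1) * (d * (R ^ ε / ε)) :=
              mul_le_mul_of_nonneg_left (mul_le_mul_of_nonneg_left h2 hd1.le) (by positivity)
            linarith
        _ = _ := by ring
    have h0 : 0 ≤ ((d : ℝ) + 1) * Real.log (R ^ d) + 2 := by
      have : 0 ≤ Real.log (R ^ d) := Real.log_nonneg hRd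
      positivity
    calc (((d : ℝ) + 1) * Real.log (R ^ d) + 2) ^ r ≤ (Q * R ^ ε) ^ r :=
          pow_le_pow_left₀ h0 h1 r
      _ = Q ^ r * R ^ (ε * r) := by
          rw [mul_pow, ← Real.rpow_natCast (R ^ ε), ← Real.rpow_mul hR0.le]
      _ ≤ Q ^ r * R ^ (η / 2) := by
          refine mul_le_mul_of_nonneg_left (Real.rpow_le_rpow_of_exponent_le hR ?_) (by positivity)
          rw [hε, div_mul_eq_mul_div, div_le_div_iff₀ (by positivity) two_pos]
          nlinarith
  have hfib := AA.UpperAux.ncard_le_of_fiber V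
    (fun p => (Ideal.span {p.1} : Ideal (𝓞 k))) {I : Ideal (𝓞 k) | I ∣ Ideal.span {m}} hfin
    (fun p hp => by
      change Ideal.span {p.1} ∣ Ideal.span {m}
      rw [← hp.1]
      exact ⟨Ideal.span {p.2}, (Ideal.span_singleton_mul_span_singleton _ _).symm⟩)
    (U.ncard : ℝ) (fun I _ => by
      rcases (V ∩ (fun p => (Ideal.span {p.1} : Ideal (𝓞 k))) ⁻¹' {I}).eq_empty_or_nonempty with
        h0 | ⟨p₀, hp₀, hI₀⟩
      · rw [h0, Set.ncard_empty]
        exact ⟨Set.finite_empty, by exact_mod_cast Nat.zero_le _⟩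
      · have hsub : V ∩ (fun p => (Ideal.span {p.1} : Ideal (𝓞 k))) ⁻¹' {I} ⊆
            (fun u : (𝓞 k)ˣ => ((u : 𝓞 k) * p₀.1, ((u⁻¹ : (𝓞 k)ˣ) : 𝓞 k) * p₀.2)) '' U := by
          rintro p ⟨hp, hIp⟩
          have h1 : Ideal.span {p₀.1} = Ideal.span {p.1} := by
            have e1 : Ideal.span {p₀.1} = I := hI₀
            have e2 : Ideal.span {p.1} = I := hIp
            rw [e1, e2]
          obtain ⟨u, hu⟩ := Ideal.span_singleton_eq_span_singleton.1 h1
          have h2 : (u : 𝓞 k) * p₀.1 = p.1 := by rw [mul_comm]; exact hu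
          refine ⟨u, fun v => ?_, Prod.ext h2 ?_⟩
          · have h3 : v ((u : 𝓞 k) : k) * v (p₀.1 : k) = v (p.1 : k) := by
              rw [← map_mul, ← h2]
              rfl
            have h4 := le_place p₀.1 (hne p₀ hp₀).1 R hR (fun w => (hp₀.2 w).1) v
            have h5 : 0 < v (p₀.1 : k) := by
              rw [InfinitePlace.pos_iff]
              exact fun h => (hne p₀ hp₀).1 (RingOfIntegers.coe_eq_zero_iff.1 h)
            have h6 : v ((u : 𝓞 k) : k) * v (p₀.1 : k) ≤ R ^ d * v (p₀.1 : k) := by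
              rw [h3, mul_comm (R ^ d)]
              exact (hp.2 v).1.trans h4
            exact le_of_mul_le_mul_right h6 h5
          · have h3 : p.1 * (((u⁻¹ : (𝓞 k)ˣ) : 𝓞 k) * p₀.2) = p.1 * p.2 := by
              rw [hp.1, ← hp₀.1, ← h2]
              calc (u : 𝓞 k) * p₀.1 * (((u⁻¹ : (𝓞 k)ˣ) : 𝓞 k) * p₀.2) =
                  ((u : 𝓞 k) * ((u⁻¹ : (𝓞 k)ˣ) : 𝓞 k)) * (p₀.1 * p₀.2) := by ring
                _ = p₀.1 * p₀.2 := by rw [Units.mul_inv, one_mul]
            exact mul_left_cancel₀ (hne p hp).1 h3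
        have h1 := (Set.ncard_le_ncard hsub (hUfin.image _)).trans
          (Set.ncard_image_le hUfin)
        exact ⟨(hUfin.image _).subset hsub, by exact_mod_cast h1⟩)
  refine ⟨hfib.1, hfib.2.trans ?_⟩
  calc ({I : Ideal (𝓞 k) | I ∣ Ideal.span {m}}.ncard : ℝ) * (U.ncard : ℝ)
      ≤ (C₁ * R ^ (η / 2)) * (K * Q ^ r * R ^ (η / 2)) :=
        mul_le_mul hI hUc (Nat.cast_nonneg _) (by positivity)
    _ = C₁ * (K * Q ^ r) * R ^ η := by
        have h1 : R ^ η = R ^ (η / 2) * R ^ (η / 2) := by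
          rw [← Real.rpow_add hR0]
          congr 1
          ring
        rw [h1]
        ring
    _ ≤ _ := by
        refine mul_le_mul_of_nonneg_right ?_ (by positivity)
        refine mul_le_mul_of_nonneg_left (by linarith) (by linarith)

end Pool.Agent.QDX
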