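import Pool.Agent.SFD.Count
import Pool.Agent.AA.Tower
import Pool.Agent.TW.Main

/-!
# Quadratic extensions: the discriminant, and the number of discriminants of forms
-/

set_option autoImplicit false

open Polynomial NumberField IntermediateField Module

namespace Pool.Agent.QDX

/-- the discriminant of a quadratic extension is at most a constant times the norm of `Δ` -/
theorem discr_le {k : Type} [Field k] [NumberField k] (L : Type) [Field L] [NumberField L]
    [Algebra k L] (Δ : 𝓞 k) (ρ : 𝓞 L) (hρ : ρ ^ 2 = algebraMap (𝓞 k) (𝓞 L) Δ)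
    (hgen : IntermediateField.adjoin k {(ρ : L)} = ⊤) (h2 : finrank k L = 2) :
    |(discr L : ℝ)| ≤ 4 ^ finrank ℚ k * |(discr k : ℝ)| ^ 2 * |(Algebra.norm ℤ Δ : ℝ)| := by
  have h := natAbs_discr_eq_absNorm_differentIdeal_mul_natAbs_discr_pow k (𝓞 k) L (𝓞 L)
  rw [h2] at h
  have hint : IsIntegral k (ρ : L) := IsIntegral.of_finite k _
  have hadj : Algebra.adjoin k {algebraMap (𝓞 L) L ρ} = ⊤ := by
    have h1 := IntermediateField.adjoin_simple_toSubalgebra_of_isAlgebraic (F := k)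
      (α := (ρ : L)) hint.isAlgebraic
    rw [hgen] at h1
    rw [← h1]
    rfl
  have hmem := aeval_derivative_mem_differentIdeal (𝓞 k) k L ρ hadj
  have hmon : (X ^ 2 - C Δ : (𝓞 k)[X]).Monic := monic_X_pow_sub_C Δ two_ne_zero
  have hdeg : (minpoly (𝓞 k) ρ).natDegree = 2 := by
    have h3 := minpoly.isIntegrallyClosed_eq_field_fractions k L
      (IsIntegral.of_finite (𝓞 k) ρ)
    have h4 : (minpoly k (algebraMap (𝓞 L) L ρ)).natDegree = 2 := by
      rw [← IntermediateField.adjoin.finrank hint]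
      change finrank k (IntermediateField.adjoin k {(ρ : L)}) = 2
      rw [hgen, IntermediateField.finrank_top', h2]
    rw [h3, natDegree_map_eq_of_injective RingOfIntegers.coe_injective] at h4
    exact h4
  have hmin : minpoly (𝓞 k) ρ = X ^ 2 - C Δ := by
    have h3 : minpoly (𝓞 k) ρ ∣ X ^ 2 - C Δ := by
      refine minpoly.isIntegrallyClosed_dvd (IsIntegral.of_finite (𝓞 k) ρ) ?_
      rw [map_sub, map_pow, aeval_X, aeval_C, hρ, sub_self]
    refine (Polynomial.eq_of_monic_of_dvd_of_natDegree_le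
      (minpoly.monic (IsIntegral.of_finite (𝓞 k) ρ)) hmon h3 ?_).symm
    rw [natDegree_X_pow_sub_C, hdeg]
  have hval : aeval ρ (derivative (minpoly (𝓞 k) ρ)) = 2 * ρ := by
    rw [hmin, derivative_sub, derivative_X_pow, derivative_C, sub_zero, map_mul, aeval_C]
    simp only [Nat.cast_ofNat, Nat.add_one_sub_one, pow_one, aeval_X]
    congr 1
    exact map_ofNat _ 2
  rw [hval] at hmem
  have hΔ : Δ ≠ 0 := by
    rintro rfl
    rw [map_zero] at hρ
    have h3 : ρ = 0 := by simpa using hρ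
    rw [h3] at hgen
    have h4 : finrank k L = 1 := by
      rw [← IntermediateField.finrank_top' (F := k) (E := L), ← hgen]
      have : ((0 : 𝓞 L) : L) = 0 := rfl
      rw [this]
      simp
    omega
  have hρ0 : ρ ≠ 0 := by
    rintro rfl
    rw [zero_pow two_ne_zero] at hρ
    exact hΔ ((FaithfulSMul.algebraMap_eq_zero_iff (𝓞 k) (𝓞 L)).1 hρ.symm)
  have h5 : (Ideal.absNorm (differentIdeal (𝓞 k) (𝓞 L)) : ℤ) ∣ Algebra.norm ℤ (2 * ρ) :=
    Ideal.absNorm_dvd_norm_of_mem hmem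
  have h6 : Algebra.norm ℤ (2 * ρ) ≠ 0 :=
    Algebra.norm_ne_zero_iff.2 (mul_ne_zero two_ne_zero hρ0)
  have h7 : (Ideal.absNorm (differentIdeal (𝓞 k) (𝓞 L)) : ℤ) ≤ |Algebra.norm ℤ (2 * ρ)| :=
    Int.le_of_dvd (abs_pos.2 h6) ((dvd_abs _ _).2 h5)
  -- the norm of `2 ρ`
  have h8 : |(Algebra.norm ℤ (2 * ρ) : ℝ)| = 4 ^ finrank ℚ k * |(Algebra.norm ℤ Δ : ℝ)| := by
    have e1 : (Algebra.norm ℚ ((2 * ρ : 𝓞 L) : L)) ^ 2 =
        (4 ^ finrank ℚ k * Algebra.norm ℚ (Δ : k)) ^ 2 := by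
      have e2 : ((2 * ρ : 𝓞 L) : L) ^ 2 = algebraMap k L (4 * (Δ : k)) := by
        have e3 : ((2 * ρ : 𝓞 L) : L) = 2 * (ρ : L) := rfl
        have e4 : (ρ : L) ^ 2 = algebraMap k L (Δ : k) := congrArg (algebraMap (𝓞 L) L) hρ
        rw [e3, mul_pow, e4, map_mul, map_ofNat]
        norm_num
      have e5 : Algebra.norm ℚ (4 : k) = 4 ^ finrank ℚ k := by
        have := Algebra.norm_algebraMap (R := ℚ) (S := k) 4
        rwa [map_ofNat] at this
      rw [← map_pow, e2, ← Algebra.norm_norm (S := k), Algebra.norm_algebraMap, h2, map_pow,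
        map_mul, e5]
    have e6 : |Algebra.norm ℚ ((2 * ρ : 𝓞 L) : L)| =
        |4 ^ finrank ℚ k * Algebra.norm ℚ (Δ : k)| := abs_eq_abs.2 (sq_eq_sq_iff_eq_or_eq_neg.1 e1)
    rw [← Algebra.coe_norm_int, ← Algebra.coe_norm_int, abs_mul, abs_of_pos
      (by positivity : (0 : ℚ) < 4 ^ finrank ℚ k)] at e6
    have e7 := congrArg (fun q : ℚ => (q : ℝ)) e6
    push_cast at e7
    exact e7
  have h9 : |(discr L : ℝ)| = (Ideal.absNorm (differentIdeal (𝓞 k) (𝓞 L)) : ℝ) *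
      |(discr k : ℝ)| ^ 2 := by
    have e1 := congrArg (fun n : ℕ => (n : ℝ)) h
    push_cast at e1
    rw [Nat.cast_natAbs, Nat.cast_natAbs, Int.cast_abs, Int.cast_abs] at e1
    exact e1
  have h10 : (Ideal.absNorm (differentIdeal (𝓞 k) (𝓞 L)) : ℝ) ≤
      |(Algebra.norm ℤ (2 * ρ) : ℝ)| := by exact_mod_cast h7
  rw [h9]
  calc (Ideal.absNorm (differentIdeal (𝓞 k) (𝓞 L)) : ℝ) * |(discr k : ℝ)| ^ 2
      ≤ (4 ^ finrank ℚ k * |(Algebra.norm ℤ Δ : ℝ)|) * |(discr k : ℝ)| ^ 2 :=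
        mul_le_mul_of_nonneg_right (h10.trans_eq h8) (by positivity)
    _ = 4 ^ finrank ℚ k * |(discr k : ℝ)| ^ 2 * |(Algebra.norm ℤ Δ : ℝ)| := by ring

end Pool.Agent.QDX
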