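import Pool.Agent.QDX.Cells
import Pool.Agent.QDX.Disc

/-!
# The number of discriminants of binary quadratic forms which generate a given field
-/

set_option autoImplicit false

open Polynomial NumberField IntermediateField Module

namespace Pool.Agent.QDX

/-- the norm of an integer of bounded size -/
theorem norm_le {k : Type} [Field k] [NumberField k] (z : 𝓞 k) (hz : z ≠ 0) (t : ℝ)
    (h : ∀ w : InfinitePlace k, w (z : k) ≤ t) :
    |(Algebra.norm ℤ z : ℝ)| ≤ t ^ finrank ℚ k := by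
  have h1 := SFD.absNorm_le _ z hz (Ideal.mem_span_singleton_self z) t h
  rw [Ideal.absNorm_span_singleton, Nat.cast_natAbs, Int.cast_abs] at h1
  exact h1

/-- the discriminant of a quadratic extension inside the algebraic closure -/
theorem discr_le_of {k : Type} [Field k] [NumberField k]
    (L : IntermediateField k (AlgebraicClosure k)) [NumberField L] (Δ : 𝓞 k)
    (ρ : AlgebraicClosure k) (hρ : ρ ^ 2 = algebraMap k (AlgebraicClosure k) (Δ : k))
    (hL : IntermediateField.adjoin k {ρ} = L) (h2 : finrank k L = 2) :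
    |(discr L : ℝ)| ≤ 4 ^ finrank ℚ k * |(discr k : ℝ)| ^ 2 * |(Algebra.norm ℤ Δ : ℝ)| := by
  have hmem : ρ ∈ L := by
    rw [← hL]
    exact mem_adjoin_simple_self k ρ
  have hsq : (⟨ρ, hmem⟩ : L) ^ 2 = algebraMap k L (Δ : k) := by
    apply Subtype.ext
    exact hρ
  have hint : IsIntegral ℤ (⟨ρ, hmem⟩ : L) := by
    refine IsIntegral.of_pow two_pos ?_
    rw [hsq]
    exact Δ.isIntegral_coe.algebraMap
  refine discr_le L Δ ⟨⟨ρ, hmem⟩, hint⟩ ?_ ?_ h2
  · apply RingOfIntegers.ext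
    exact hsq
  · apply IntermediateField.lift_injective L
    rw [IntermediateField.lift_adjoin_simple, IntermediateField.lift_top]
    exact hL

/-- The number of the discriminants which generate a given field. -/
theorem disc_count (k : Type) [Field k] [NumberField k] : ∃ C : ℝ, 0 < C ∧
    ∀ (L : IntermediateField k (AlgebraicClosure k)) [NumberField L], finrank k L = 2 →
    ∀ R : ℝ, 1 ≤ R →
    {Δ : 𝓞 k | (∀ v : InfinitePlace k, v (Δ : k) ≤ 5 * R ^ 2) ∧ ∃ ρ : AlgebraicClosure k,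
      ρ ^ 2 = algebraMap k (AlgebraicClosure k) (Δ : k) ∧
      IntermediateField.adjoin k {ρ} = L}.Finite ∧
    ({Δ : 𝓞 k | (∀ v : InfinitePlace k, v (Δ : k) ≤ 5 * R ^ 2) ∧ ∃ ρ : AlgebraicClosure k,
      ρ ^ 2 = algebraMap k (AlgebraicClosure k) (Δ : k) ∧
      IntermediateField.adjoin k {ρ} = L}.ncard : ℝ) ≤
      C * R ^ finrank ℚ k / √|(discr L : ℝ)| := by
  classical
  set d := finrank ℚ k with hd
  have hd0 : 0 < d := finrank_pos
  set C₂ : ℝ := 4 ^ d * |(discr k : ℝ)| ^ 2 with hC₂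
  have hdk : (0 : ℝ) < |(discr k : ℝ)| := by
    rw [abs_pos]
    exact_mod_cast discr_ne_zero k
  have hC₂0 : 0 < C₂ := by positivity
  refine ⟨8 ^ d * √(2 * C₂ * 5 ^ d), by positivity, fun L _ h2 R hR => ?_⟩
  have hR0 : 0 < R := by linarith
  have hD0 : (0 : ℝ) < |(discr L : ℝ)| := by
    rw [abs_pos]
    exact_mod_cast discr_ne_zero L
  set S : Set (𝓞 k) := {Δ : 𝓞 k | (∀ v : InfinitePlace k, v (Δ : k) ≤ 5 * R ^ 2) ∧
    ∃ ρ : AlgebraicClosure k, ρ ^ 2 = algebraMap k (AlgebraicClosure k) (Δ : k) ∧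
      IntermediateField.adjoin k {ρ} = L} with hS
  rcases S.eq_empty_or_nonempty with h0 | ⟨Δ₀, hΔ₀, ρ₀, hρ₀, hL₀⟩
  · rw [h0, Set.ncard_empty]
    refine ⟨Set.finite_empty, ?_⟩
    rw [Nat.cast_zero]
    positivity
  have hΔ0 : Δ₀ ≠ 0 := by
    rintro rfl
    have h1 : ρ₀ = 0 := by simpa using hρ₀
    rw [h1] at hL₀
    have h3 : finrank k L = 1 := by
      rw [← hL₀]
      simp
    omega
  have hv0 : ∀ v : InfinitePlace k, 0 < v (Δ₀ : k) := fun v => by
    rw [InfinitePlace.pos_iff]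
    exact fun h => hΔ0 (RingOfIntegers.coe_eq_zero_iff.1 h)
  have hΔk : (Δ₀ : k) ≠ 0 := fun h => hΔ0 (RingOfIntegers.coe_eq_zero_iff.1 h)
  set P : ℝ := √(|(discr L : ℝ)| / (2 * C₂ * 5 ^ d)) with hP
  have hP0 : 0 < P := Real.sqrt_pos.2 (by positivity)
  set τ : ℝ := P ^ ((1 : ℝ) / d) with hτ
  have hτ0 : 0 < τ := by positivity
  have hτd : τ ^ d = P := by
    rw [hτ, ← Real.rpow_natCast, ← Real.rpow_mul hP0.le, one_div,
      inv_mul_cancel₀ (by exact_mod_cast hd0.ne'), Real.rpow_one]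
  have hP2 : P ^ 2 = |(discr L : ℝ)| / (2 * C₂ * 5 ^ d) := Real.sq_sqrt (by positivity)
  have hτR : τ ≤ R := by
    have h1 := discr_le_of L Δ₀ ρ₀ hρ₀ hL₀ h2
    have h3 := norm_le Δ₀ hΔ0 _ hΔ₀
    have h4 : P ^ 2 ≤ (R ^ d) ^ 2 := by
      rw [hP2, div_le_iff₀ (by positivity)]
      calc |(discr L : ℝ)| ≤ C₂ * |(Algebra.norm ℤ Δ₀ : ℝ)| := h1
        _ ≤ C₂ * (5 * R ^ 2) ^ d := mul_le_mul_of_nonneg_left h3 hC₂0.le
        _ ≤ (C₂ * (5 * R ^ 2) ^ d) * 2 := by
            have : 0 ≤ C₂ * (5 * R ^ 2) ^ d := by positivity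
            linarith
        _ = (R ^ d) ^ 2 * (2 * C₂ * 5 ^ d) := by ring
    have h5 : P ≤ R ^ d := le_of_sq_le_sq h4 (by positivity)
    rw [← hτd] at h5
    exact le_of_pow_le_pow_left₀ hd0.ne' hR0.le h5
  have hs : ∀ Δ : 𝓞 k, ∃ s : k, Δ ∈ S → s ^ 2 * (Δ₀ : k) = (Δ : k) := by
    intro Δ
    by_cases hΔ : Δ ∈ S
    · obtain ⟨-, ρ, hρ, hLρ⟩ := hΔ
      obtain ⟨z, hz⟩ := TW.isSquare_of_adjoin (Δ : k) (Δ₀ : k) ρ ρ₀ hρ hρ₀ (by rw [hLρ, hL₀])
      refine ⟨z / (Δ₀ : k), fun _ => ?_⟩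
      rw [div_pow, hz]
      field_simp
    · exact ⟨0, fun h => absurd h hΔ⟩
  choose s hs' using hs
  set μ : InfinitePlace k → ℝ := fun v => √5 / √(v (Δ₀ : k)) with hμ
  have hμ0 : ∀ v, 0 < μ v := fun v =>
    div_pos (Real.sqrt_pos.2 (by norm_num)) (Real.sqrt_pos.2 (hv0 v))
  have hμ2 : ∀ v, μ v ^ 2 * v (Δ₀ : k) = 5 := fun v => by
    rw [hμ]
    simp only []
    rw [div_pow, Real.sq_sqrt (by norm_num), Real.sq_sqrt (hv0 v).le,
      div_mul_cancel₀ _ (hv0 v).ne']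
  obtain ⟨hfin, hcard⟩ := cells_w s R τ μ hτ0 hτR hμ0 S (fun Δ hΔ v => by
    have h1 : v (s Δ) ^ 2 * v (Δ₀ : k) = v (Δ : k) := by
      rw [← map_pow, ← map_mul, hs' Δ hΔ]
    have h3 : v (s Δ) ^ 2 * v (Δ₀ : k) ≤ (R * μ v) ^ 2 * v (Δ₀ : k) := by
      rw [h1, mul_pow, mul_assoc, hμ2, mul_comm]
      exact hΔ.1 v
    exact le_of_sq_le_sq (le_of_mul_le_mul_right h3 (hv0 v)) (by have := hμ0 v; positivity))
    (fun Δ hΔ Δ' hΔ' hclose => by
      by_contra hne
      set t : k := s Δ - s Δ' with ht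
      have ht0 : t ≠ 0 := by
        intro h
        apply hne
        have h1 : s Δ = s Δ' := sub_eq_zero.1 h
        apply RingOfIntegers.ext
        rw [← hs' Δ hΔ, ← hs' Δ' hΔ', h1]
      have hroot : ∀ E ∈ S, IsIntegral ℤ (algebraMap k (AlgebraicClosure k) (s E) * ρ₀) := by
        intro E hE
        refine IsIntegral.of_pow two_pos ?_
        rw [mul_pow, hρ₀, ← map_pow, ← map_mul, hs' E hE]
        exact E.isIntegral_coe.algebraMap
      set ρ := algebraMap k (AlgebraicClosure k) t * ρ₀ with hρ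
      have hint : IsIntegral ℤ ρ := by
        rw [hρ, ht, map_sub, sub_mul]
        exact (hroot Δ hΔ).sub (hroot Δ' hΔ')
      have hsq : ρ ^ 2 = algebraMap k (AlgebraicClosure k) (t ^ 2 * (Δ₀ : k)) := by
        rw [hρ, mul_pow, hρ₀, map_mul, map_pow]
      have hint2 : IsIntegral ℤ (t ^ 2 * (Δ₀ : k)) := by
        have h1 : IsIntegral ℤ (algebraMap k (AlgebraicClosure k) (t ^ 2 * (Δ₀ : k))) := by
          rw [← hsq]
          exact hint.pow 2
        exact (isIntegral_algebraMap_iff (algebraMap k (AlgebraicClosure k)).injective).1 h1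
      set Δ₂ : 𝓞 k := ⟨t ^ 2 * (Δ₀ : k), hint2⟩ with hΔ₂
      have hΔ₂k : (Δ₂ : k) = t ^ 2 * (Δ₀ : k) := rfl
      have hΔ₂0 : Δ₂ ≠ 0 := by
        intro h
        have h1 : (Δ₂ : k) = 0 := RingOfIntegers.coe_eq_zero_iff.2 h
        rw [hΔ₂k] at h1
        exact mul_ne_zero (pow_ne_zero 2 ht0) hΔk h1
      have hadj : IntermediateField.adjoin k {ρ} = L := by
        rw [← hL₀]
        refine le_antisymm ?_ ?_
        · rw [IntermediateField.adjoin_simple_le_iff, hρ]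
          exact mul_mem (IntermediateField.algebraMap_mem _ _) (mem_adjoin_simple_self k ρ₀)
        · rw [IntermediateField.adjoin_simple_le_iff]
          have h1 : ρ₀ = algebraMap k (AlgebraicClosure k) t⁻¹ * ρ := by
            rw [hρ, ← mul_assoc, ← map_mul, inv_mul_cancel₀ ht0, map_one, one_mul]
          rw [h1]
          exact mul_mem (IntermediateField.algebraMap_mem _ _) (mem_adjoin_simple_self k ρ)
      have h1 := discr_le_of L Δ₂ ρ hsq hadj h2
      have h3 := norm_le Δ₂ hΔ₂0 (5 * τ ^ 2) (fun v => by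
        rw [hΔ₂k, map_mul, map_pow]
        have h4 : v t ^ 2 ≤ (τ * μ v) ^ 2 :=
          pow_le_pow_left₀ (apply_nonneg v _) (hclose v).le 2
        calc v t ^ 2 * v (Δ₀ : k) ≤ (τ * μ v) ^ 2 * v (Δ₀ : k) :=
              mul_le_mul_of_nonneg_right h4 (hv0 v).le
          _ = 5 * τ ^ 2 := by rw [mul_pow, mul_assoc, hμ2, mul_comm])
      have h4 : |(discr L : ℝ)| ≤ |(discr L : ℝ)| / 2 := by
        calc |(discr L : ℝ)| ≤ C₂ * |(Algebra.norm ℤ Δ₂ : ℝ)| := h1
          _ ≤ C₂ * (5 * τ ^ 2) ^ d := mul_le_mul_of_nonneg_left h3 hC₂0.le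
          _ = C₂ * 5 ^ d * (τ ^ d) ^ 2 := by ring
          _ = |(discr L : ℝ)| / 2 := by
              rw [hτd, hP2]
              field_simp
      linarith)
  refine ⟨hfin, hcard.trans (le_of_eq ?_)⟩
  rw [div_pow, hτd, hP, Real.sqrt_div' _ (by positivity), mul_pow]
  field_simp
  rfl

end Pool.Agent.QDX
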