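import Pool.Agent.QDX.Count
import Pool.Agent.SFD.SieveX
import Pool.Agent.SFD.GoodX

/-!
# The number of quadratic points with a small discriminant
-/

set_option autoImplicit false

open Polynomial NumberField IntermediateField Module Pool.Agent.RefW

namespace Pool.Agent.QDX

/-- The number of the forms whose discriminant generates a given field. -/
theorem form_count (k : Type) [Field k] [NumberField k] (η : ℝ) (hη : 0 < η) : ∃ C : ℝ, 0 < C ∧
    ∀ (L : IntermediateField k (AlgebraicClosure k)) [NumberField L], finrank k L = 2 →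
    ∀ R : ℝ, 1 ≤ R →
    {F : Fin 3 → 𝓞 k | (∀ i, ∀ v : InfinitePlace k, v (F i : k) ≤ R) ∧ F 0 ≠ 0 ∧ F 2 ≠ 0 ∧
      ∃ ρ : AlgebraicClosure k, ρ ^ 2 = algebraMap k (AlgebraicClosure k)
        ((F 1 ^ 2 - 4 * F 0 * F 2 : 𝓞 k) : k) ∧ IntermediateField.adjoin k {ρ} = L}.Finite ∧
    ({F : Fin 3 → 𝓞 k | (∀ i, ∀ v : InfinitePlace k, v (F i : k) ≤ R) ∧ F 0 ≠ 0 ∧ F 2 ≠ 0 ∧
      ∃ ρ : AlgebraicClosure k, ρ ^ 2 = algebraMap k (AlgebraicClosure k)
        ((F 1 ^ 2 - 4 * F 0 * F 2 : 𝓞 k) : k) ∧ IntermediateField.adjoin k {ρ} = L}.ncard : ℝ) ≤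
      C * (R ^ finrank ℚ k) ^ 2 * R ^ η / √|(discr L : ℝ)| := by
  classical
  set d := finrank ℚ k with hd
  obtain ⟨C₁, hC₁, h₁⟩ := disc_count k
  obtain ⟨C₂, hC₂, h₂⟩ := pair_count k η hη
  refine ⟨8 ^ d * C₁ * C₂, by positivity, fun L _ h2 R hR => ?_⟩
  have hR0 : 0 < R := by linarith
  obtain ⟨f1, c1⟩ := h₁ L h2 R hR
  obtain ⟨f3, c3⟩ := int_count k R hR
  set S : Set (𝓞 k) := {Δ : 𝓞 k | (∀ v : InfinitePlace k, v (Δ : k) ≤ 5 * R ^ 2) ∧
    ∃ ρ : AlgebraicClosure k, ρ ^ 2 = algebraMap k (AlgebraicClosure k) (Δ : k) ∧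
      IntermediateField.adjoin k {ρ} = L} with hS
  set I : Set (𝓞 k) := {b : 𝓞 k | ∀ v : InfinitePlace k, v (b : k) ≤ R} with hI
  set V : Set (Fin 3 → 𝓞 k) := {F : Fin 3 → 𝓞 k | (∀ i, ∀ v : InfinitePlace k,
    v (F i : k) ≤ R) ∧ F 0 ≠ 0 ∧ F 2 ≠ 0 ∧ ∃ ρ : AlgebraicClosure k,
      ρ ^ 2 = algebraMap k (AlgebraicClosure k) ((F 1 ^ 2 - 4 * F 0 * F 2 : 𝓞 k) : k) ∧
      IntermediateField.adjoin k {ρ} = L} with hV
  have hsub : ∀ F ∈ V, ((F 1, F 1 ^ 2 - 4 * F 0 * F 2) : 𝓞 k × 𝓞 k) ∈ I ×ˢ S := by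
    rintro F ⟨hF, h0, h2, hρ⟩
    refine Set.mk_mem_prod (hF 1) ⟨fun v => ?_, hρ⟩
    have e1 : ((F 1 ^ 2 - 4 * F 0 * F 2 : 𝓞 k) : k) =
        (F 1 : k) ^ 2 - 4 * (F 0 : k) * (F 2 : k) := by
      simp only [map_sub, map_pow, map_mul]
      rw [map_ofNat]
    rw [e1, ← InfinitePlace.norm_embedding_eq, map_sub, map_pow, map_mul, map_mul, map_ofNat]
    have g : ∀ i, ‖v.embedding (F i : k)‖ ≤ R := fun i => by
      rw [InfinitePlace.norm_embedding_eq]
      exact hF i v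
    calc ‖v.embedding (F 1 : k) ^ 2 - 4 * v.embedding (F 0 : k) * v.embedding (F 2 : k)‖
        ≤ ‖v.embedding (F 1 : k) ^ 2‖ + ‖4 * v.embedding (F 0 : k) * v.embedding (F 2 : k)‖ :=
          norm_sub_le _ _
      _ = ‖v.embedding (F 1 : k)‖ ^ 2 +
          4 * (‖v.embedding (F 0 : k)‖ * ‖v.embedding (F 2 : k)‖) := by
          rw [norm_pow, norm_mul, norm_mul, Complex.norm_ofNat]
          ring
      _ ≤ R ^ 2 + 4 * (R * R) := by
          have h3 := pow_le_pow_left₀ (norm_nonneg _) (g 1) 2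
          have h4 := mul_le_mul (g 0) (g 2) (norm_nonneg _) hR0.le
          linarith
      _ = 5 * R ^ 2 := by ring
  have hfib := AA.UpperAux.ncard_le_of_fiber V
    (fun F => ((F 1, F 1 ^ 2 - 4 * F 0 * F 2) : 𝓞 k × 𝓞 k)) (I ×ˢ S) (f3.prod f1) hsub
    (C₂ * R ^ η) (fun q _ => by
      rcases (V ∩ (fun F => ((F 1, F 1 ^ 2 - 4 * F 0 * F 2) : 𝓞 k × 𝓞 k)) ⁻¹'
        {q}).eq_empty_or_nonempty with h0 | ⟨G, hG, hGq⟩
      · rw [h0, Set.ncard_empty]
        refine ⟨Set.finite_empty, ?_⟩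
        rw [Nat.cast_zero]
        positivity
      · obtain ⟨f4, c4⟩ := h₂ R hR (G 0 * G 2) (mul_ne_zero hG.2.1 hG.2.2.1)
        set W := {p : 𝓞 k × 𝓞 k | p.1 * p.2 = G 0 * G 2 ∧ ∀ v : InfinitePlace k,
          v (p.1 : k) ≤ R ∧ v (p.2 : k) ≤ R} with hW
        have hGF : ∀ F ∈ V ∩ (fun F => ((F 1, F 1 ^ 2 - 4 * F 0 * F 2) : 𝓞 k × 𝓞 k)) ⁻¹' {q},
            F 1 = q.1 ∧ F 0 * F 2 = G 0 * G 2 := by
          rintro F ⟨-, hFq⟩
          have e1 : (F 1, F 1 ^ 2 - 4 * F 0 * F 2) = q := hFq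
          have e2 : (G 1, G 1 ^ 2 - 4 * G 0 * G 2) = q := hGq
          have e3 : F 1 = q.1 := congrArg Prod.fst e1
          have e4 : G 1 = q.1 := congrArg Prod.fst e2
          have e5 : F 1 ^ 2 - 4 * F 0 * F 2 = q.2 := congrArg Prod.snd e1
          have e6 : G 1 ^ 2 - 4 * G 0 * G 2 = q.2 := congrArg Prod.snd e2
          refine ⟨e3, ?_⟩
          have e7 : (4 : 𝓞 k) * (F 0 * F 2) = 4 * (G 0 * G 2) := by
            rw [e3] at e5
            rw [e4] at e6
            linear_combination e6 - e5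
          exact mul_left_cancel₀ (by norm_num) e7
        have hmaps : ∀ F ∈ V ∩ (fun F => ((F 1, F 1 ^ 2 - 4 * F 0 * F 2) : 𝓞 k × 𝓞 k)) ⁻¹' {q},
            ((F 0, F 2) : 𝓞 k × 𝓞 k) ∈ W := fun F hF =>
          ⟨(hGF F hF).2, fun v => ⟨hF.1.1 0 v, hF.1.1 2 v⟩⟩
        have hinj : Set.InjOn (fun F : Fin 3 → 𝓞 k => ((F 0, F 2) : 𝓞 k × 𝓞 k))
            (V ∩ (fun F => ((F 1, F 1 ^ 2 - 4 * F 0 * F 2) : 𝓞 k × 𝓞 k)) ⁻¹' {q}) := by
          intro F hF F' hF' hFF
          have e1 : F 0 = F' 0 := congrArg Prod.fst hFF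
          have e2 : F 2 = F' 2 := congrArg Prod.snd hFF
          have e3 : F 1 = F' 1 := by rw [(hGF F hF).1, (hGF F' hF').1]
          funext i
          fin_cases i
          · exact e1
          · exact e3
          · exact e2
        refine ⟨Set.Finite.of_injOn hmaps hinj f4, ?_⟩
        have h5 := Set.ncard_le_ncard_of_injOn _ hmaps hinj f4
        exact (Nat.cast_le.2 h5).trans c4)
  refine ⟨hfib.1, hfib.2.trans ?_⟩
  rw [Set.ncard_prod, Nat.cast_mul]
  calc (I.ncard : ℝ) * S.ncard * (C₂ * R ^ η)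
      ≤ ((8 * R) ^ d * (C₁ * R ^ d / √|(discr L : ℝ)|)) * (C₂ * R ^ η) := by
        refine mul_le_mul_of_nonneg_right ?_ (by positivity)
        exact mul_le_mul c3 c1 (Nat.cast_nonneg _) (by positivity)
    _ = _ := by
        rw [mul_pow]
        ring

/-- The number of the quadratic points with a given field. -/
theorem point_count (k : Type) [Field k] [NumberField k] (η : ℝ) (hη : 0 < η) : ∃ C : ℝ, 0 < C ∧
    ∀ (L : IntermediateField k (AlgebraicClosure k)) [NumberField L], finrank k L = 2 →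
    ∀ B : ℝ, 1 ≤ B →
    {x : AlgebraicClosure k | IntermediateField.adjoin k {x} = L ∧ AA.relHeight x ≤ B}.Finite ∧
    ({x : AlgebraicClosure k | IntermediateField.adjoin k {x} = L ∧
      AA.relHeight x ≤ B}.ncard : ℝ) ≤ C * B ^ (2 + η) / √|(discr L : ℝ)| := by
  classical
  set d := finrank ℚ k with hd
  have hd0 : 0 < d := finrank_pos
  have hd1 : (1 : ℝ) ≤ d := by exact_mod_cast hd0
  obtain ⟨C₀, hC₀, h₀⟩ := SFD.exists_form k 2
  obtain ⟨C₁, hC₁, h₁⟩ := form_count k η hη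
  refine ⟨2 * C₁ * (C₀ ^ d) ^ 2 * C₀ ^ η, by positivity, fun L _ h2 B hB => ?_⟩
  have hB0 : 0 < B := by linarith
  have hB1 : 1 ≤ B ^ ((1 : ℝ) / d) := Real.one_le_rpow hB (by positivity)
  set R : ℝ := C₀ * B ^ ((1 : ℝ) / d) with hR
  have hR1 : 1 ≤ R := by
    rw [hR]
    nlinarith
  obtain ⟨fW, cW⟩ := h₁ L h2 R hR1
  set W : Set (Fin 3 → 𝓞 k) := {F : Fin 3 → 𝓞 k | (∀ i, ∀ v : InfinitePlace k,
    v (F i : k) ≤ R) ∧ F 0 ≠ 0 ∧ F 2 ≠ 0 ∧ ∃ ρ : AlgebraicClosure k,
      ρ ^ 2 = algebraMap k (AlgebraicClosure k) ((F 1 ^ 2 - 4 * F 0 * F 2 : 𝓞 k) : k) ∧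
      IntermediateField.adjoin k {ρ} = L} with hW
  set V : Set (AlgebraicClosure k) := {x : AlgebraicClosure k |
    IntermediateField.adjoin k {x} = L ∧ AA.relHeight x ≤ B} with hV
  have hex : ∀ x : AlgebraicClosure k, ∃ F : Fin 3 → 𝓞 k, x ∈ V →
      (∀ i, ∀ v : InfinitePlace k, v (F i : k) ≤ R) ∧ F 2 ≠ 0 ∧
      algebraMap k (AlgebraicClosure k) (F 0 : k) + algebraMap k (AlgebraicClosure k) (F 1 : k) * x
        + algebraMap k (AlgebraicClosure k) (F 2 : k) * x ^ 2 = 0 := by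
    intro x
    by_cases hx : x ∈ V
    · obtain ⟨F, hF1, hF2, hF3, hF4⟩ := h₀ x B (by rw [hx.1]; exact h2) hB hx.2
      refine ⟨F, fun _ => ⟨hF1, ?_, ?_⟩⟩
      · intro h0
        have e1 := AA.link_coeff F (Fin.last 2)
        have e2 : (polyOf F).coeff 2 = ((F 2 : 𝓞 k)) := e1
        have e3 : (polyOf F).leadingCoeff = 0 := by
          unfold leadingCoeff
          rw [hF3, e2, h0]
        exact hF2 (leadingCoeff_eq_zero.1 e3)
      · unfold polyOf at hF4
        rw [Polynomial.map_sum, map_sum, Fin.sum_univ_three] at hF4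
        simp only [Polynomial.map_mul, Polynomial.map_pow, map_C, map_X, map_mul, map_pow,
          aeval_C, aeval_X, Fin.val_zero, Fin.val_one, Fin.val_two, pow_zero, mul_one,
          pow_one] at hF4
        exact hF4
    · exact ⟨0, fun h => absurd h hx⟩
  choose f hf using hex
  have hinj : Function.Injective (algebraMap k (AlgebraicClosure k)) :=
    (algebraMap k (AlgebraicClosure k)).injective
  have hmaps : ∀ x ∈ V, f x ∈ W := by
    intro x hx
    obtain ⟨g1, g2, g3⟩ := hf x hx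
    set α := algebraMap k (AlgebraicClosure k) with hα
    have h2k : ((f x 2 : 𝓞 k) : k) ≠ 0 := fun h => g2 (RingOfIntegers.coe_eq_zero_iff.1 h)
    have hnk : x ∉ (⊥ : IntermediateField k (AlgebraicClosure k)) := by
      intro h
      have e1 : IntermediateField.adjoin k {x} = ⊥ := IntermediateField.adjoin_simple_eq_bot_iff.2 h
      have e2 : finrank k L = 1 := by
        rw [← hx.1, e1, IntermediateField.finrank_bot]
      omega
    refine ⟨g1, ?_, g2, α (2 * (f x 2 : k)) * x + α (f x 1 : k), ?_, ?_⟩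
    · intro h0
      rw [h0] at g3
      have e1 : x * (α (f x 1 : k) + α (f x 2 : k) * x) = 0 := by
        have : α ((0 : 𝓞 k) : k) = 0 := by
          have : ((0 : 𝓞 k) : k) = 0 := rfl
          rw [this, map_zero]
        rw [this] at g3
        linear_combination g3
      rcases mul_eq_zero.1 e1 with e2 | e2
      · exact hnk (e2 ▸ zero_mem _)
      · apply hnk
        rw [IntermediateField.mem_bot]
        refine ⟨-(f x 1 : k) / (f x 2 : k), ?_⟩
        have e3 : α (f x 2 : k) ≠ 0 := (_root_.map_ne_zero α).2 h2k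
        change α (-(f x 1 : k) / (f x 2 : k)) = x
        rw [map_div₀, map_neg, div_eq_iff e3]
        linear_combination -e2
    · have e1 : ((f x 1 ^ 2 - 4 * f x 0 * f x 2 : 𝓞 k) : k) =
          (f x 1 : k) ^ 2 - 4 * (f x 0 : k) * (f x 2 : k) := by
        simp only [map_sub, map_pow, map_mul]
        rw [map_ofNat]
      rw [e1]
      simp only [map_sub, map_pow, map_mul, map_ofNat]
      linear_combination (4 * α (f x 2 : k)) * g3
    · rw [← hx.1]
      have h2x : (2 * (f x 2 : k)) ≠ 0 := mul_ne_zero two_ne_zero h2k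
      refine le_antisymm ?_ ?_
      · rw [IntermediateField.adjoin_simple_le_iff]
        exact add_mem (mul_mem (IntermediateField.algebraMap_mem _ _) (mem_adjoin_simple_self k x))
          (IntermediateField.algebraMap_mem _ _)
      · rw [IntermediateField.adjoin_simple_le_iff]
        set ρ := α (2 * (f x 2 : k)) * x + α (f x 1 : k) with hρ
        have e1 : x = (ρ - α (f x 1 : k)) * α (2 * (f x 2 : k))⁻¹ := by
          rw [hρ, add_sub_cancel_right, map_inv₀]
          have e3 : α (2 * (f x 2 : k)) ≠ 0 := (_root_.map_ne_zero α).2 h2x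
          field_simp
        rw [e1]
        exact mul_mem (sub_mem (mem_adjoin_simple_self k ρ) (IntermediateField.algebraMap_mem _ _))
          (IntermediateField.algebraMap_mem _ _)
  obtain ⟨fV, cV⟩ := AA.UpperAux.ncard_le_of_fiber V f W fW hmaps 2 (fun F hF => by
    set q : (AlgebraicClosure k)[X] := (C (algebraMap k (AlgebraicClosure k) (F 2 : k))) * X ^ 2 +
      C (algebraMap k (AlgebraicClosure k) (F 1 : k)) * X +
      C (algebraMap k (AlgebraicClosure k) (F 0 : k)) with hq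
    have hF2 : algebraMap k (AlgebraicClosure k) (F 2 : k) ≠ 0 :=
      (_root_.map_ne_zero _).2 fun h => hF.2.2.1 (RingOfIntegers.coe_eq_zero_iff.1 h)
    have hqd : q.natDegree = 2 := natDegree_quadratic hF2
    have hq0 : q ≠ 0 := by
      intro h
      rw [h, natDegree_zero] at hqd
      omega
    have hsub : V ∩ f ⁻¹' {F} ⊆ (q.roots.toFinset : Set (AlgebraicClosure k)) := by
      rintro x ⟨hx, hxF⟩
      have hxF' : f x = F := hxF
      obtain ⟨-, -, g3⟩ := hf x hx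
      rw [hxF'] at g3
      rw [Finset.mem_coe, Multiset.mem_toFinset, mem_roots hq0, IsRoot.def, hq]
      simp only [eval_add, eval_mul, eval_C, eval_pow, eval_X]
      linear_combination g3
    refine ⟨(Finset.finite_toSet _).subset hsub, ?_⟩
    have h5 := Set.ncard_le_ncard hsub (Finset.finite_toSet _)
    rw [Set.ncard_coe_finset] at h5
    have h6 := (h5.trans (Multiset.toFinset_card_le _)).trans (card_roots' q)
    rw [hqd] at h6
    exact_mod_cast h6)
  refine ⟨fV, cV.trans ?_⟩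
  have hRd : R ^ d = C₀ ^ d * B := by
    rw [hR, mul_pow, ← Real.rpow_natCast (B ^ ((1 : ℝ) / d)), ← Real.rpow_mul hB0.le, one_div,
      inv_mul_cancel₀ (by positivity), Real.rpow_one]
  have hRη : R ^ η ≤ C₀ ^ η * B ^ η := by
    rw [hR, Real.mul_rpow (by linarith) (by positivity)]
    refine mul_le_mul_of_nonneg_left ?_ (by positivity)
    rw [← Real.rpow_mul hB0.le]
    refine Real.rpow_le_rpow_of_exponent_le hB ?_
    have : (1 : ℝ) / d ≤ 1 := by
      rw [div_le_one (by linarith)]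
      exact hd1
    nlinarith
  have hD0 : 0 ≤ √|(discr L : ℝ)| := Real.sqrt_nonneg _
  calc (W.ncard : ℝ) * 2 ≤ (C₁ * (R ^ d) ^ 2 * R ^ η / √|(discr L : ℝ)|) * 2 :=
        mul_le_mul_of_nonneg_right cW zero_le_two
    _ ≤ (C₁ * (R ^ d) ^ 2 * (C₀ ^ η * B ^ η) / √|(discr L : ℝ)|) * 2 := by
        refine mul_le_mul_of_nonneg_right ?_ zero_le_two
        refine div_le_div_of_nonneg_right ?_ hD0
        exact mul_le_mul_of_nonneg_left hRη (by positivity)
    _ = _ := by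
        rw [hRd, Real.rpow_add hB0, Real.rpow_two]
        ring

end Pool.Agent.QDX
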